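import Pool.Agent.H87.Stab.Sig

/-! Sylvester-type counting for Hermitian matrices, and the signature near `ω = 1`. -/

open Finset Matrix

namespace Pool.Agent.H87.Stab

/-- Hermitian form -/
noncomputable def Q {n : ℕ} (H : Matrix (Fin n) (Fin n) ℂ) (x : Fin n → ℂ) : ℝ :=
  (star x ⬝ᵥ (H *ᵥ x)).re

theorem Q_spec {n : ℕ} {H : Matrix (Fin n) (Fin n) ℂ} (hH : H.IsHermitian) :
    ∃ L : (Fin n → ℂ) ≃ₗ[ℂ] (Fin n → ℂ),
      (∀ x, Q H x = ∑ i, hH.eigenvalues i * ‖L x i‖ ^ 2) ∧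
      ∀ x, ∑ i, ‖L x i‖ ^ 2 = ∑ i, ‖x i‖ ^ 2 := by
  set U : Matrix (Fin n) (Fin n) ℂ := (hH.eigenvectorUnitary : Matrix (Fin n) (Fin n) ℂ) with hU
  have h1 : U * star U = 1 := (Matrix.mem_unitaryGroup_iff).1 hH.eigenvectorUnitary.2
  have h2 : star U * U = 1 := (Matrix.mem_unitaryGroup_iff').1 hH.eigenvectorUnitary.2
  have hspec : H = U * diagonal (fun i => (hH.eigenvalues i : ℂ)) * star U := by
    have := hH.spectral_theorem
    rw [Unitary.conjStarAlgAut_apply] at this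
    exact this
  have hdot : ∀ x : Fin n → ℂ, ∀ y : Fin n → ℂ,
      star (star U *ᵥ x) ⬝ᵥ y = star x ⬝ᵥ (U *ᵥ y) := by
    intro x y
    rw [star_mulVec, ← star_eq_conjTranspose, star_star, ← dotProduct_mulVec]
  have hsq : ∀ y : Fin n → ℂ, ∀ a : Fin n → ℝ,
      (star y ⬝ᵥ (fun i => (a i : ℂ) * y i)).re = ∑ i, a i * ‖y i‖ ^ 2 := by
    intro y a
    rw [dotProduct, Complex.re_sum]
    apply sum_congr rfl
    intro i _
    have : star y i * ((a i : ℂ) * y i) = ((a i * ‖y i‖ ^ 2 : ℝ) : ℂ) := by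
      have h := Complex.conj_mul' (y i)
      have e : star y i = (starRingEnd ℂ) (y i) := rfl
      rw [e]
      push_cast
      rw [← h]; ring
    rw [this, Complex.ofReal_re]
  refine ⟨Matrix.toLin'OfInv h1 h2, ?_, ?_⟩
  · intro x
    have e : (Matrix.toLin'OfInv h1 h2) x = star U *ᵥ x := by
      simp [Matrix.toLin'OfInv]
    rw [e, ← hsq (star U *ᵥ x) hH.eigenvalues, hdot]
    rw [Q]
    congr 2
    conv_lhs => rw [hspec]
    rw [← mulVec_mulVec, ← mulVec_mulVec]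
    congr 1
    ext i
    rw [mulVec_diagonal]
  · intro x
    have e : (Matrix.toLin'OfInv h1 h2) x = star U *ᵥ x := by
      simp [Matrix.toLin'OfInv]
    have h3 := hsq (star U *ᵥ x) (fun _ => 1)
    have h4 := hsq x (fun _ => 1)
    simp only [Complex.ofReal_one, one_mul] at h3 h4
    rw [e, ← h3, ← h4]
    have h5 : star (star U *ᵥ x) ⬝ᵥ (fun i => (star U *ᵥ x) i) = star x ⬝ᵥ (fun i => x i) := by
      have := hdot x (star U *ᵥ x)
      rw [mulVec_mulVec, h1, one_mulVec] at this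
      exact this
    rw [h5]

theorem count_ge {n : ℕ} {H : Matrix (Fin n) (Fin n) ℂ} (hH : H.IsHermitian) (ε : ℝ)
    {ι : Type*} [Fintype ι] (J : (ι → ℂ) →ₗ[ℝ] (Fin n → ℂ))
    (hJ : ∀ z, z ≠ 0 → 0 < ε * Q H (J z)) :
    Fintype.card ι ≤ (univ.filter fun i => 0 < ε * hH.eigenvalues i).card := by
  classical
  obtain ⟨L, hL1, hL2⟩ := Q_spec hH
  let P : (ι → ℂ) →ₗ[ℝ] ({i // 0 < ε * hH.eigenvalues i} → ℂ) :=
    (LinearMap.funLeft ℝ ℂ Subtype.val) ∘ₗ (L.toLinearMap.restrictScalars ℝ) ∘ₗ J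
  have hP : ∀ z i, P z i = L (J z) i.1 := fun z i => rfl
  have hinj : Function.Injective P := by
    rw [injective_iff_map_eq_zero]
    intro z hz
    by_contra hne
    have h1 := hJ z hne
    rw [hL1, mul_sum] at h1
    have h2 : ∑ i, ε * (hH.eigenvalues i * ‖L (J z) i‖ ^ 2) ≤ 0 := by
      apply sum_nonpos
      intro i _
      by_cases hi : 0 < ε * hH.eigenvalues i
      · have h3 : L (J z) i = 0 := by
          rw [← hP z ⟨i, hi⟩, hz]; rfl
        rw [h3]; simp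
      · rw [← mul_assoc]
        exact mul_nonpos_of_nonpos_of_nonneg (not_lt.1 hi) (by positivity)
    linarith
  have h3 := LinearMap.finrank_le_finrank_of_injective hinj
  rw [Module.finrank_pi_fintype, Module.finrank_pi_fintype] at h3
  simp only [Complex.finrank_real_complex, sum_const, card_univ, smul_eq_mul] at h3
  rw [Fintype.card_subtype] at h3
  omega

theorem exists_J {n : ℕ} {H : Matrix (Fin n) (Fin n) ℂ} (hH : H.IsHermitian) (ε : ℝ) :
    ∃ c : ℝ, 0 < c ∧ ∃ J : ({i // 0 < ε * hH.eigenvalues i} → ℂ) →ₗ[ℝ] (Fin n → ℂ),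
      ∀ z, c * ∑ i, ‖J z i‖ ^ 2 ≤ ε * Q H (J z) ∧ (z ≠ 0 → 0 < ∑ i, ‖J z i‖ ^ 2) := by
  classical
  obtain ⟨L, hL1, hL2⟩ := Q_spec hH
  obtain ⟨c, hc, hc'⟩ : ∃ c : ℝ, 0 < c ∧ ∀ i, 0 < ε * hH.eigenvalues i →
      c ≤ ε * hH.eigenvalues i := by
    by_cases hne : (univ.filter fun i => 0 < ε * hH.eigenvalues i).Nonempty
    · obtain ⟨i, hi, hmin⟩ := exists_min_image _ (fun i => ε * hH.eigenvalues i) hne
      refine ⟨ε * hH.eigenvalues i, (mem_filter.1 hi).2, fun j hj => ?_⟩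
      exact hmin j (mem_filter.2 ⟨mem_univ _, hj⟩)
    · refine ⟨1, one_pos, fun i hi => ?_⟩
      exact absurd ⟨i, mem_filter.2 ⟨mem_univ _, hi⟩⟩ hne
  let E : ({i // 0 < ε * hH.eigenvalues i} → ℂ) →ₗ[ℝ] (Fin n → ℂ) :=
    { toFun := fun z i => if h : 0 < ε * hH.eigenvalues i then z ⟨i, h⟩ else 0
      map_add' := by
        intro z w; ext i; simp only [Pi.add_apply]; split_ifs <;> simp
      map_smul' := by
        intro r z; ext i; simp only [Pi.smul_apply, RingHom.id_apply]; split_ifs <;> simp }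
  have hE : ∀ z i, E z i = if h : 0 < ε * hH.eigenvalues i then z ⟨i, h⟩ else 0 :=
    fun z i => rfl
  refine ⟨c, hc, (L.symm.toLinearMap.restrictScalars ℝ) ∘ₗ E, fun z => ?_⟩
  have hLJ : L (((L.symm.toLinearMap.restrictScalars ℝ) ∘ₗ E) z) = E z := by
    simp
  rw [← hL2, hL1, hLJ]
  constructor
  · rw [mul_sum, mul_sum]
    apply sum_le_sum
    intro i _
    rw [← mul_assoc]
    by_cases hi : 0 < ε * hH.eigenvalues i
    · exact mul_le_mul_of_nonneg_right (hc' i hi) (by positivity)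
    · rw [hE, dif_neg hi]; simp
  · intro hz
    obtain ⟨i, hi⟩ := Function.ne_iff.1 hz
    apply sum_pos'
    · intro j _; positivity
    · refine ⟨i.1, mem_univ _, ?_⟩
      rw [hE, dif_pos i.2]
      have : z ⟨i.1, i.2⟩ ≠ 0 := hi
      have := norm_pos_iff.2 this
      positivity

theorem Q_bound {n : ℕ} (T : Matrix (Fin n) (Fin n) ℂ) (x : Fin n → ℂ) :
    |Q T x| ≤ (∑ i, ∑ j, ‖T i j‖) * ∑ k, ‖x k‖ ^ 2 := by
  have h1 : |Q T x| ≤ ‖star x ⬝ᵥ (T *ᵥ x)‖ := Complex.abs_re_le_norm _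
  refine h1.trans ?_
  have h2 : star x ⬝ᵥ (T *ᵥ x) = ∑ i, ∑ j, star (x i) * (T i j * x j) := by
    rw [dotProduct]
    apply sum_congr rfl; intro i _
    rw [mulVec, dotProduct, mul_sum]; rfl
  rw [h2]
  refine (norm_sum_le _ _).trans ?_
  rw [sum_mul]
  apply sum_le_sum
  intro i _
  refine (norm_sum_le _ _).trans ?_
  rw [sum_mul]
  apply sum_le_sum
  intro j _
  rw [norm_mul, norm_mul, norm_star]
  have hk : ∀ k, ‖x k‖ ^ 2 ≤ ∑ k, ‖x k‖ ^ 2 := fun k =>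
    single_le_sum (f := fun k => ‖x k‖ ^ 2) (fun k _ => by positivity) (mem_univ k)
  have h3 : ‖x i‖ * ‖x j‖ ≤ ∑ k, ‖x k‖ ^ 2 := by
    have := hk i
    have := hk j
    nlinarith [sq_nonneg (‖x i‖ - ‖x j‖)]
  calc ‖x i‖ * (‖T i j‖ * ‖x j‖) = ‖T i j‖ * (‖x i‖ * ‖x j‖) := by ring
    _ ≤ ‖T i j‖ * ∑ k, ‖x k‖ ^ 2 := mul_le_mul_of_nonneg_left h3 (norm_nonneg _)

theorem Q_comb {n : ℕ} (S T : Matrix (Fin n) (Fin n) ℂ) (r τ : ℝ) (x : Fin n → ℂ) :
    Q ((r : ℂ) • (S + (τ : ℂ) • T)) x = r * (Q S x + τ * Q T x) := by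
  rw [Q, Q, Q, smul_mulVec, add_mulVec, smul_mulVec, dotProduct_smul, dotProduct_add,
    dotProduct_smul, smul_eq_mul, smul_eq_mul, Complex.re_ofReal_mul, Complex.add_re,
    Complex.re_ofReal_mul]

/-- Small perturbations do not decrease the number of eigenvalues of a given sign. -/
theorem count_stable {n : ℕ} {S : Matrix (Fin n) (Fin n) ℂ} (T : Matrix (Fin n) (Fin n) ℂ)
    (hS : S.IsHermitian) (ε : ℝ) (hε : |ε| = 1) :
    ∃ δ : ℝ, 0 < δ ∧ ∀ τ r : ℝ, 0 ≤ τ → τ < δ → 0 < r → ∀ (H : Matrix (Fin n) (Fin n) ℂ)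
      (hH : H.IsHermitian), H = (r : ℂ) • (S + (τ : ℂ) • T) →
      (univ.filter fun i => 0 < ε * hS.eigenvalues i).card ≤
        (univ.filter fun i => 0 < ε * hH.eigenvalues i).card := by
  obtain ⟨c, hc, J, hJ⟩ := exists_J hS ε
  set K := ∑ i, ∑ j, ‖T i j‖ with hK
  have hK0 : 0 ≤ K := sum_nonneg fun i _ => sum_nonneg fun j _ => norm_nonneg _
  refine ⟨c / (K + 1), by positivity, fun τ r hτ0 hτ hr H hH hHe => ?_⟩
  have h := count_ge hH ε J (by
    intro z hz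
    obtain ⟨h1, h2⟩ := hJ z
    have h3 := h2 hz
    set N := ∑ i, ‖J z i‖ ^ 2 with hN
    rw [hHe, Q_comb]
    have h4 := Q_bound T (J z)
    rw [← hK, ← hN] at h4
    have h5 : |ε * (τ * Q T (J z))| ≤ τ * (K * N) := by
      rw [abs_mul, hε, one_mul, abs_mul, abs_of_nonneg hτ0]
      exact mul_le_mul_of_nonneg_left h4 hτ0
    have h6 := (abs_le.1 h5).1
    have h7 : τ * (K + 1) < c := by rwa [lt_div_iff₀ (by positivity)] at hτ
    have h8 : τ * (K * N) < c * N := by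
      have h9 : τ * K < c := by nlinarith
      calc τ * (K * N) = (τ * K) * N := by ring
        _ < c * N := mul_lt_mul_of_pos_right h9 h3
    have h10 : 0 < ε * (Q S (J z) + τ * Q T (J z)) := by
      rw [mul_add]; linarith
    calc 0 < r * (ε * (Q S (J z) + τ * Q T (J z))) := mul_pos hr h10
      _ = _ := by ring)
  rwa [Fintype.card_subtype] at h

end Pool.Agent.H87.Stab
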