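import Pool.Agent.H87.Stab.Trig

/-! The polynomial `det (V - t Vᵀ)` on the unit circle. -/

open Polynomial Finset Matrix

namespace Pool.Agent.H87.Stab

open Pool.Agent.H87.Oka

/-- `det (V - t Vᵀ)`, as a real polynomial in `t`. -/
noncomputable def alex {n : ℕ} (V : Matrix (Fin n) (Fin n) ℝ) : ℝ[X] :=
  (V.map C - (X : ℝ[X]) • Vᵀ.map C).det

/-- The Hermitian matrix `(1 - ω) V + (1 - ω⁻¹) Vᵀ`, `ω = exp (i θ)`. -/
noncomputable def TL {n : ℕ} (V : Matrix (Fin n) (Fin n) ℝ) (θ : ℝ) : Matrix (Fin n) (Fin n) ℂ :=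
  (1 - Complex.exp (θ * Complex.I)) • V.map Complex.ofReal +
    (1 - Complex.exp (-(θ * Complex.I))) • Vᵀ.map Complex.ofReal

theorem TL_herm {n : ℕ} (V : Matrix (Fin n) (Fin n) ℝ) (θ : ℝ) : (TL V θ).IsHermitian := by
  have h1 : (starRingEnd ℂ) (Complex.exp (θ * Complex.I)) = Complex.exp (-(θ * Complex.I)) := by
    rw [← Complex.exp_conj]; congr 1; simp
  have h2 : (starRingEnd ℂ) (Complex.exp (-(θ * Complex.I))) = Complex.exp (θ * Complex.I) := by
    rw [← Complex.exp_conj]; congr 1; simp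
  ext i j
  simp only [TL, conjTranspose_apply, Matrix.add_apply, Matrix.smul_apply, Matrix.map_apply,
    transpose_apply, smul_eq_mul, star_add, star_mul', star_sub, star_one, RCLike.star_def, h1, h2,
    Complex.conj_ofReal]
  ring

theorem alex_eval {n : ℕ} (V : Matrix (Fin n) (Fin n) ℝ) {S : Type*} [CommRing S] [Algebra ℝ S]
    (z : S) : aeval z (alex V) = (V.map (algebraMap ℝ S) - z • Vᵀ.map (algebraMap ℝ S)).det := by
  rw [alex, AlgHom.map_det]
  congr 1
  ext i j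
  simp
  ring

theorem alex_natDegree {n : ℕ} (V : Matrix (Fin n) (Fin n) ℝ) : (alex V).natDegree ≤ n := by
  have h := natDegree_det_X_add_C_le (-Vᵀ) V
  rw [Fintype.card_fin] at h
  have e : (X : ℝ[X]) • (-Vᵀ).map C + V.map C = V.map C - (X : ℝ[X]) • Vᵀ.map C := by
    ext i j
    simp [sub_eq_add_neg, add_comm]
  rwa [e] at h

theorem alex_symm {g : ℕ} (V : Matrix (Fin (2 * g)) (Fin (2 * g)) ℝ) (i : ℕ) (hi : i ≤ 2 * g) :
    (alex V).coeff (2 * g - i) = (alex V).coeff i := by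
  have key : reflect (2 * g) (alex V) = alex V := by
    apply Polynomial.eq_of_infinite_eval_eq
    apply Set.Infinite.mono (s := {0}ᶜ)
    · intro y hy
      have hy0 : y ≠ 0 := hy
      have hx0 : y⁻¹ ≠ 0 := inv_ne_zero hy0
      let _ : Invertible y⁻¹ := invertibleOfNonzero hx0
      have h1 := eval₂_reflect_mul_pow (RingHom.id ℝ) y⁻¹ (2 * g) (alex V) (alex_natDegree V)
      rw [invOf_eq_inv, inv_inv] at h1
      have h2 : eval y⁻¹ (alex V) = (y⁻¹) ^ (2 * g) * eval y (alex V) := by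
        have e1 := alex_eval V (y⁻¹)
        have e2 := alex_eval V y
        rw [coe_aeval_eq_eval] at e1 e2
        rw [e1, e2, ← det_transpose]
        have e3 : (V.map (algebraMap ℝ ℝ) - y⁻¹ • Vᵀ.map (algebraMap ℝ ℝ))ᵀ =
            (-y⁻¹) • (V.map (algebraMap ℝ ℝ) - y • Vᵀ.map (algebraMap ℝ ℝ)) := by
          ext i j
          simp
          field_simp
          ring
        rw [e3, det_smul, Fintype.card_fin, Even.neg_pow (even_two_mul g)]
      change eval y (reflect (2 * g) (alex V)) = eval y (alex V)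
      have h3 : eval y (reflect (2 * g) (alex V)) * y⁻¹ ^ (2 * g) = eval y⁻¹ (alex V) := h1
      rw [h2, mul_comm] at h3
      exact mul_left_cancel₀ (pow_ne_zero _ hx0) h3
    · exact Set.Finite.infinite_compl (Set.finite_singleton 0)
  have h := congrArg (fun p => p.coeff i) key
  simp only [coeff_reflect] at h
  rwa [revAt_le hi] at h

theorem sum_sym (g : ℕ) (p : ℕ → ℂ) (hp : ∀ i ≤ 2 * g, p (2 * g - i) = p i) (z : ℂ) (hz : z ≠ 0) :
    ∑ i ∈ range (2 * g + 1), p i * z ^ i =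
      z ^ g * (p g + ∑ j ∈ range g, p (g + (j + 1)) * (z ^ (j + 1) + (z⁻¹) ^ (j + 1))) := by
  have e : 2 * g + 1 = g + 1 + g := by ring
  rw [e, sum_range_add, sum_range_succ, ← sum_range_reflect (fun i => p i * z ^ i) g]
  have h1 : ∀ j ∈ range g, p (g - 1 - j) * z ^ (g - 1 - j) =
      z ^ g * (p (g + (j + 1)) * (z⁻¹) ^ (j + 1)) := by
    intro j hj
    have hj' := mem_range.1 hj
    have e1 : p (g - 1 - j) = p (g + (j + 1)) := by
      rw [← hp (g + (j + 1)) (by omega)]; congr 1; omega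
    have e2 : z ^ g = z ^ (g - 1 - j) * z ^ (j + 1) := by rw [← pow_add]; congr 1; omega
    rw [e1, e2, inv_pow]
    have : z ^ (j + 1) ≠ 0 := pow_ne_zero _ hz
    field_simp
  rw [sum_congr rfl h1, ← mul_sum]
  have h2 : ∀ j ∈ range g, p (g + 1 + j) * z ^ (g + 1 + j) =
      z ^ g * (p (g + (j + 1)) * z ^ (j + 1)) := by
    intro j _
    have e1 : g + 1 + j = g + (j + 1) := by ring
    rw [e1, pow_add]; ring
  rw [sum_congr rfl h2, ← mul_sum]
  simp_rw [mul_add]
  rw [sum_add_distrib, mul_add]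
  ring

/-- The real trigonometric polynomial attached to `V`. -/
noncomputable def ft {g : ℕ} (V : Matrix (Fin (2 * g)) (Fin (2 * g)) ℝ) (θ : ℝ) : ℝ :=
  (alex V).coeff g + ∑ j ∈ range g, (alex V).coeff (g + (j + 1)) * (2 * Real.cos ((j + 1 : ℕ) * θ))

theorem det_TL {g : ℕ} (V : Matrix (Fin (2 * g)) (Fin (2 * g)) ℝ) (θ : ℝ) :
    (TL V θ).det = (((2 * Real.cos θ - 2) ^ g * ft V θ : ℝ) : ℂ) := by
  set w : ℂ := Complex.exp (θ * Complex.I) with hw
  have hw0 : w ≠ 0 := Complex.exp_ne_zero _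
  have hwi : Complex.exp (-(θ * Complex.I)) = w⁻¹ := by rw [hw, Complex.exp_neg]
  have hTL : TL V θ = (1 - w) • (V.map (algebraMap ℝ ℂ) - w⁻¹ • Vᵀ.map (algebraMap ℝ ℂ)) := by
    ext i j
    simp only [TL, ← hw, hwi, Matrix.add_apply, Matrix.smul_apply, Matrix.map_apply,
      transpose_apply, smul_eq_mul, Matrix.sub_apply, Complex.coe_algebraMap]
    field_simp
    ring
  rw [hTL, det_smul, Fintype.card_fin, ← alex_eval, aeval_eq_sum_range' (n := 2 * g + 1)
    (Nat.lt_succ_of_le (alex_natDegree V))]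
  have h1 : ∑ i ∈ range (2 * g + 1), (alex V).coeff i • (w⁻¹) ^ i =
      ∑ i ∈ range (2 * g + 1), (((alex V).coeff i : ℝ) : ℂ) * (w⁻¹) ^ i := by
    apply sum_congr rfl; intro i _; rw [Complex.real_smul]
  rw [h1, sum_sym g (fun i => (((alex V).coeff i : ℝ) : ℂ))
    (fun i hi => by simp only [alex_symm V i hi]) w⁻¹ (inv_ne_zero hw0), inv_inv]
  have h2 : ∀ k : ℕ, (w⁻¹) ^ k + w ^ k = ((2 * Real.cos (k * θ) : ℝ) : ℂ) := by
    intro k
    rw [Complex.ofReal_mul, Complex.ofReal_cos, Complex.cos]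
    rw [← hwi, hw, ← Complex.exp_nat_mul, ← Complex.exp_nat_mul]
    push_cast
    have e1 : (k : ℂ) * (θ * Complex.I) = k * θ * Complex.I := by ring
    have e2 : (k : ℂ) * -(θ * Complex.I) = -(k * θ) * Complex.I := by ring
    rw [e1, e2]
    ring
  have h3 : (1 - w) ^ (2 * g) * (w⁻¹) ^ g = (((2 * Real.cos θ - 2) ^ g : ℝ) : ℂ) := by
    rw [pow_mul, ← mul_pow, Complex.ofReal_pow]
    congr 1
    have h4 := h2 1
    simp only [pow_one, Nat.cast_one, one_mul] at h4
    rw [Complex.ofReal_sub, ← h4]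
    field_simp
    push_cast
    ring
  rw [← mul_assoc, h3, Complex.ofReal_mul]
  congr 1
  rw [ft, Complex.ofReal_add, Complex.ofReal_sum]
  congr 1
  apply sum_congr rfl
  intro j _
  rw [h2 (j + 1), ← Complex.ofReal_mul]

theorem two_sin_mul (b : ℕ → ℝ) (φ : ℝ) (G : ℕ) :
    2 * Real.sin (φ / 2) * (b 0 + ∑ j ∈ range G, b (j + 1) * (2 * Real.cos ((j + 1 : ℕ) * φ))) =
      (∑ j ∈ range (G + 1), 2 * (b j - b (j + 1)) * hs j φ) + 2 * b (G + 1) * hs G φ := by
  induction G with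
  | zero =>
    simp [hs]
    have : (2⁻¹ : ℝ) * φ = φ / 2 := by ring
    rw [this]; ring
  | succ G ih =>
    rw [sum_range_succ, sum_range_succ _ (G + 1)]
    have h1 : 2 * Real.sin (φ / 2) * Real.cos ((G + 1 : ℕ) * φ) = hs (G + 1) φ - hs G φ := by
      have e1 : hs (G + 1) φ = Real.sin ((G + 1 : ℕ) * φ + φ / 2) := by
        rw [hs]; congr 1; push_cast; ring
      have e2 : hs G φ = Real.sin ((G + 1 : ℕ) * φ - φ / 2) := by
        rw [hs]; congr 1; push_cast; ring
      rw [e1, e2, Real.sin_add, Real.sin_sub]; ring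
    linear_combination ih + 2 * b (G + 1) * h1

theorem ft_pi_sub {g : ℕ} (V : Matrix (Fin (2 * g)) (Fin (2 * g)) ℝ) (φ : ℝ) :
    2 * Real.sin (φ / 2) * ft V (Real.pi - φ) =
      ∑ j ∈ range (g + 1), 2 * ((-1) ^ j * (alex V).coeff (g + j) -
        (-1) ^ (j + 1) * (alex V).coeff (g + (j + 1))) * hs j φ := by
  have h := two_sin_mul (fun j => (-1) ^ j * (alex V).coeff (g + j)) φ g
  have h0 : (alex V).coeff (g + (g + 1)) = 0 := by
    apply coeff_eq_zero_of_natDegree_lt
    have := alex_natDegree V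
    omega
  simp only [h0, mul_zero, zero_mul, add_zero, pow_zero, one_mul] at h
  rw [← h, ft]
  congr 2
  apply sum_congr rfl
  intro j _
  have e : Real.cos ((j + 1 : ℕ) * (Real.pi - φ)) = (-1) ^ (j + 1) * Real.cos ((j + 1 : ℕ) * φ) := by
    rw [mul_sub, Real.cos_sub, Real.cos_nat_mul_pi, Real.sin_nat_mul_pi]; ring
  rw [e]; ring

theorem exists_alt {g m : ℕ} (V : Matrix (Fin (2 * g)) (Fin (2 * g)) ℝ) (A : ℝ) (hA : A ≠ 0)
    (h : ∀ j ≤ m, (alex V).coeff (g + j) = (-1) ^ j * A) :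
    ∃ θ : ℕ → ℝ, ∃ σ : ℝ, σ ≠ 0 ∧ (∀ l < m, θ (l + 1) < θ l) ∧
      (∀ l ≤ m, 0 < θ l ∧ θ l < Real.pi) ∧
      ∀ l ≤ m, ∃ D : ℝ, (TL V (θ l)).det = (D : ℂ) ∧ 0 < σ * (-1) ^ l * D := by
  set b : ℕ → ℝ := fun j => (-1) ^ j * (alex V).coeff (g + j) with hb
  have hbA : ∀ j ≤ m, b j = A := by
    intro j hj
    simp only [hb]
    rw [h j hj, ← mul_assoc, ← mul_pow]; norm_num
  have hbg : b (g + 1) = 0 := by
    have h0 : (alex V).coeff (g + (g + 1)) = 0 := by
      apply coeff_eq_zero_of_natDegree_lt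
      have := alex_natDegree V
      omega
    simp only [hb]; rw [h0, mul_zero]
  have hS := strong_of_high g m (fun j => 2 * (b j - b (j + 1))) (by
    intro j hj
    rw [hbA j hj.le, hbA (j + 1) hj]; ring) (by
    by_contra hcon
    push Not at hcon
    have hall : ∀ j ≤ g + 1, b j = A := by
      intro j
      induction j with
      | zero => intro _; exact hbA 0 (Nat.zero_le _)
      | succ j ih =>
        intro hj
        have h1 := hcon j (by omega)
        have h2 := ih (by omega)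
        linarith
    have := hall (g + 1) le_rfl
    rw [hbg] at this
    exact hA this.symm)
  obtain ⟨f, σ, hσ, hf1, hf2, hf3⟩ := hS
  refine ⟨fun l => Real.pi - ph (g + 1) (f l), σ * (-1) ^ g, ?_, ?_, ?_, ?_⟩
  · exact mul_ne_zero hσ (pow_ne_zero _ (by norm_num))
  · intro l hl
    have := ph_lt (g + 1) _ _ (hf1 l hl)
    simp only
    linarith
  · intro l hl
    have h1 := ph_pos (g + 1) (f l)
    have h2 := ph_lt_pi (g + 1) (f l) (hf2 l hl)
    simp only
    constructor <;> linarith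
  · intro l hl
    refine ⟨_, det_TL V _, ?_⟩
    simp only
    have h1 := ph_pos (g + 1) (f l)
    have h2 := ph_lt_pi (g + 1) (f l) (hf2 l hl)
    set φ := ph (g + 1) (f l) with hφ
    have h3 := hf3 l hl
    simp only at h3
    have h4 := ft_pi_sub V φ
    have h5 : ∑ j ∈ range (g + 1), 2 * (b j - b (j + 1)) * hs j (ph (g + 1) (f l)) =
        2 * Real.sin (φ / 2) * ft V (Real.pi - φ) := by rw [h4]
    rw [h5] at h3
    have hsin : 0 < Real.sin (φ / 2) := Real.sin_pos_of_pos_of_lt_pi (by linarith) (by linarith)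
    have hcos : Real.cos (Real.pi - φ) < 1 := by
      rw [Real.cos_pi_sub]
      have : Real.cos Real.pi < Real.cos φ :=
        Real.cos_lt_cos_of_nonneg_of_le_pi h1.le le_rfl h2
      rw [Real.cos_pi] at this
      linarith
    have e : (2 * Real.cos (Real.pi - φ) - 2) ^ g = (-1) ^ g * (2 - 2 * Real.cos (Real.pi - φ)) ^ g := by
      rw [← mul_pow]; congr 1; ring
    have hpg : 0 < (2 - 2 * Real.cos (Real.pi - φ)) ^ g := by
      apply pow_pos; linarith
    have e2 : σ * (-1) ^ g * (-1) ^ l * ((2 * Real.cos (Real.pi - φ) - 2) ^ g * ft V (Real.pi - φ)) =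
        ((2 - 2 * Real.cos (Real.pi - φ)) ^ g * (σ * (-1) ^ l * (2 * Real.sin (φ / 2) *
          ft V (Real.pi - φ)))) / (2 * Real.sin (φ / 2)) := by
      rw [e]
      have h11 : ((-1 : ℝ) ^ g) * (-1) ^ g = 1 := by rw [← mul_pow]; norm_num
      rw [eq_div_iff (by positivity)]
      linear_combination (2 * Real.sin (φ / 2) * σ * (-1) ^ l * ft V (Real.pi - φ) *
        (2 - 2 * Real.cos (Real.pi - φ)) ^ g) * h11
    rw [e2]
    exact div_pos (mul_pos hpg h3) (by linarith)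

end Pool.Agent.H87.Stab
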