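import Pool.Agent.H87.Stab.Cont

/-! The signature near `ω = 1`, scaling, and the monotone case. -/

open Finset Matrix

namespace Pool.Agent.H87.Stab

/-- number of eigenvalues of sign `ε` -/
noncomputable def cnt {n : ℕ} {H : Matrix (Fin n) (Fin n) ℂ} (hH : H.IsHermitian) (ε : ℝ) : ℕ :=
  (univ.filter fun i => 0 < ε * hH.eigenvalues i).card

theorem sig_cnt {n : ℕ} {H : Matrix (Fin n) (Fin n) ℂ} (hH : H.IsHermitian) :
    sig hH = cnt hH 1 - cnt hH (-1) := by
  rw [sig, cnt, cnt]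
  simp only [one_mul, neg_one_mul, Left.neg_pos_iff]

theorem cnt_add_le {n : ℕ} {H : Matrix (Fin n) (Fin n) ℂ} (hH : H.IsHermitian) :
    cnt hH 1 + cnt hH (-1) ≤ n := by
  classical
  rw [cnt, cnt, ← card_union_of_disjoint]
  · refine (card_le_univ _).trans ?_
    rw [Fintype.card_fin]
  · rw [disjoint_filter]
    intro i _ h1 h2
    linarith

theorem cnt_add_eq {n : ℕ} {H : Matrix (Fin n) (Fin n) ℂ} (hH : H.IsHermitian) (h0 : H.det ≠ 0) :
    cnt hH 1 + cnt hH (-1) = n := by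
  classical
  rw [cnt, cnt, ← card_union_of_disjoint]
  · have : (univ.filter fun i => 0 < 1 * hH.eigenvalues i) ∪
        (univ.filter fun i => 0 < -1 * hH.eigenvalues i) = univ := by
      ext i
      simp only [mem_union, mem_filter, mem_univ, true_and, iff_true]
      have hi : hH.eigenvalues i ≠ 0 := by
        intro h
        apply h0
        rw [det_real hH, prod_eq_zero (mem_univ i) h]; simp
      rcases lt_or_gt_of_ne hi with h | h
      · right; linarith
      · left; linarith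
    rw [this, card_univ, Fintype.card_fin]
  · rw [disjoint_filter]
    intro i _ h1 h2
    linarith

theorem cnt_scale {n : ℕ} {H K : Matrix (Fin n) (Fin n) ℂ} (hH : H.IsHermitian)
    (hK : K.IsHermitian) (ε : ℝ) (hle : ∀ x, 0 < ε * Q H x → 0 < ε * Q K x) :
    cnt hH ε ≤ cnt hK ε := by
  obtain ⟨c, hc, J, hJ⟩ := exists_J hH ε
  have h := count_ge hK ε J (by
    intro z hz
    apply hle
    obtain ⟨h1, h2⟩ := hJ z
    exact lt_of_lt_of_le (mul_pos hc (h2 hz)) h1)
  rwa [Fintype.card_subtype] at h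

theorem sig_smul {n : ℕ} {H K : Matrix (Fin n) (Fin n) ℂ} (hH : H.IsHermitian)
    (hK : K.IsHermitian) (r : ℝ) (hr : 0 < r) (hHK : K = (r : ℂ) • H) : sig hK = sig hH := by
  have hQ : ∀ x, Q K x = r * Q H x := by
    intro x
    rw [hHK, Q, Q, smul_mulVec, dotProduct_smul, smul_eq_mul, Complex.re_ofReal_mul]
  have h1 : ∀ ε : ℝ, cnt hH ε = cnt hK ε := by
    intro ε
    apply le_antisymm
    · apply cnt_scale
      intro x hx
      rw [hQ]
      calc 0 < r * (ε * Q H x) := mul_pos hr hx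
        _ = _ := by ring
    · apply cnt_scale
      intro x hx
      rw [hQ] at hx
      have : 0 < r * (ε * Q H x) := by
        calc 0 < ε * (r * Q H x) := hx
          _ = _ := by ring
      exact (mul_pos_iff_of_pos_left hr).1 this
  rw [sig_cnt, sig_cnt, h1, h1]

/-- `-i (V - Vᵀ)` -/
noncomputable def Sm {n : ℕ} (V : Matrix (Fin n) (Fin n) ℝ) : Matrix (Fin n) (Fin n) ℂ :=
  (-Complex.I) • (V - Vᵀ).map Complex.ofReal

/-- `V + Vᵀ` -/
noncomputable def Sp {n : ℕ} (V : Matrix (Fin n) (Fin n) ℝ) : Matrix (Fin n) (Fin n) ℂ :=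
  (V + Vᵀ).map Complex.ofReal

theorem Sm_herm {n : ℕ} (V : Matrix (Fin n) (Fin n) ℝ) : (Sm V).IsHermitian := by
  ext i j
  simp only [Sm, conjTranspose_apply, Matrix.smul_apply, Matrix.map_apply, Matrix.sub_apply,
    transpose_apply, smul_eq_mul, star_mul', RCLike.star_def, map_neg, Complex.conj_I,
    Complex.conj_ofReal]
  push_cast
  ring

theorem Sp_herm {n : ℕ} (V : Matrix (Fin n) (Fin n) ℝ) : (Sp V).IsHermitian := by
  ext i j
  simp only [Sp, conjTranspose_apply, Matrix.map_apply, Matrix.add_apply,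
    transpose_apply, RCLike.star_def, Complex.conj_ofReal]
  push_cast
  ring

theorem Q_Sm_star {n : ℕ} (V : Matrix (Fin n) (Fin n) ℝ) (x : Fin n → ℂ) :
    Q (Sm V) (star x) = - Q (Sm V) x := by
  have h : ∀ y : Fin n → ℂ, star y ⬝ᵥ (Sm V *ᵥ y) =
      ∑ i, ∑ j, star (y i) * (Sm V i j * y j) := by
    intro y
    rw [dotProduct]
    apply sum_congr rfl; intro i _
    rw [mulVec, dotProduct, mul_sum]; rfl
  have hc : ∀ i j, (starRingEnd ℂ) (Sm V i j) = - Sm V i j := by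
    intro i j
    simp only [Sm, Matrix.smul_apply, Matrix.map_apply, smul_eq_mul, map_mul, map_neg,
      Complex.conj_I, Complex.conj_ofReal]
    ring
  rw [Q, Q, h, h, ← Complex.neg_re, ← Complex.conj_re]
  congr 1
  rw [map_sum, ← sum_neg_distrib]
  apply sum_congr rfl; intro i _
  rw [map_sum, ← sum_neg_distrib]
  apply sum_congr rfl; intro j _
  simp only [Pi.star_apply, RCLike.star_def, map_mul, Complex.conj_conj, hc]
  ring

theorem cnt_Sm {n : ℕ} (V : Matrix (Fin n) (Fin n) ℝ) (ε : ℝ) :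
    cnt (Sm_herm V) ε ≤ cnt (Sm_herm V) (-ε) := by
  obtain ⟨c, hc, J, hJ⟩ := exists_J (Sm_herm V) ε
  let σ : (Fin n → ℂ) →ₗ[ℝ] (Fin n → ℂ) :=
    { toFun := fun x => star x
      map_add' := fun x y => star_add x y
      map_smul' := by
        intro r x
        ext i
        simp }
  have h := count_ge (Sm_herm V) (-ε) (σ ∘ₗ J) (by
    intro z hz
    obtain ⟨h1, h2⟩ := hJ z
    have e : Q (Sm V) ((σ ∘ₗ J) z) = - Q (Sm V) (J z) := Q_Sm_star V (J z)
    rw [e]
    have := lt_of_lt_of_le (mul_pos hc (h2 hz)) h1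
    linarith)
  rwa [Fintype.card_subtype] at h

theorem TL_eq {n : ℕ} (V : Matrix (Fin n) (Fin n) ℝ) (α : ℝ) (hc : Real.cos α ≠ 0) :
    TL V (2 * α) = ((2 * Real.sin α * Real.cos α : ℝ) : ℂ) •
      (Sm V + ((Real.tan α : ℝ) : ℂ) • Sp V) := by
  have h1 : Complex.exp (((2 * α : ℝ) : ℂ) * Complex.I) =
      ((1 - 2 * Real.sin α ^ 2 : ℝ) : ℂ) + ((2 * Real.sin α * Real.cos α : ℝ) : ℂ) * Complex.I := by
    rw [Complex.exp_mul_I, ← Complex.ofReal_cos, ← Complex.ofReal_sin]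
    rw [Real.cos_two_mul, Real.sin_two_mul]
    have := Real.sin_sq_add_cos_sq α
    have e2 : 2 * Real.cos α ^ 2 - 1 = 1 - 2 * Real.sin α ^ 2 := by linarith
    rw [e2]
  have h2 : Complex.exp (-(((2 * α : ℝ) : ℂ) * Complex.I)) =
      ((1 - 2 * Real.sin α ^ 2 : ℝ) : ℂ) - ((2 * Real.sin α * Real.cos α : ℝ) : ℂ) * Complex.I := by
    have e : -(((2 * α : ℝ) : ℂ) * Complex.I) = ((-(2 * α) : ℝ) : ℂ) * Complex.I := by
      push_cast; ring
    rw [e, Complex.exp_mul_I, ← Complex.ofReal_cos, ← Complex.ofReal_sin, Real.cos_neg,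
      Real.sin_neg, Real.cos_two_mul, Real.sin_two_mul]
    have := Real.sin_sq_add_cos_sq α
    have e2 : 2 * Real.cos α ^ 2 - 1 = 1 - 2 * Real.sin α ^ 2 := by linarith
    rw [e2]
    push_cast
    ring
  have hcC : ((Real.cos α : ℝ) : ℂ) ≠ 0 := by exact_mod_cast hc
  have ht : ((Real.tan α : ℝ) : ℂ) * ((Real.cos α : ℝ) : ℂ) = ((Real.sin α : ℝ) : ℂ) := by
    rw [← Complex.ofReal_mul, Real.tan_mul_cos hc]
  rw [TL, h1, h2]
  ext i j
  simp only [Sm, Sp, Matrix.add_apply, Matrix.smul_apply, Matrix.map_apply,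
    transpose_apply, smul_eq_mul, Matrix.sub_apply, Complex.ofReal_add, Complex.ofReal_sub,
    Complex.ofReal_mul, Complex.ofReal_pow, Complex.ofReal_one, Complex.ofReal_ofNat]
  linear_combination (-(2 * ((Real.sin α : ℝ) : ℂ)) * (((V i j : ℝ) : ℂ) + ((V j i : ℝ) : ℂ))) * ht

theorem levine_near_zero {n : ℕ} (V : Matrix (Fin n) (Fin n) ℝ) (hV : (V - Vᵀ).det ≠ 0) :
    ∃ δ : ℝ, 0 < δ ∧ ∀ θ : ℝ, 0 < θ → θ < δ → levine V θ = 0 := by
  obtain ⟨δ1, h1, H1⟩ := count_stable (Sp V) (Sm_herm V) 1 (by norm_num)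
  obtain ⟨δ2, h2, H2⟩ := count_stable (Sp V) (Sm_herm V) (-1) (by norm_num)
  have hcont : ContinuousAt Real.tan 0 := Real.continuousAt_tan.2 (by simp)
  rw [Metric.continuousAt_iff] at hcont
  obtain ⟨η, hη, hη'⟩ := hcont (min δ1 δ2) (lt_min h1 h2)
  refine ⟨min η 1, lt_min hη one_pos, fun θ hθ0 hθ => ?_⟩
  have hθ1 : θ < η := lt_of_lt_of_le hθ (min_le_left _ _)
  have hθ2 : θ < 1 := lt_of_lt_of_le hθ (min_le_right _ _)
  have hpi := Real.pi_gt_three
  have hα0 : 0 < θ / 2 := by linarith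
  have hs : 0 < Real.sin (θ / 2) := Real.sin_pos_of_pos_of_lt_pi hα0 (by linarith)
  have hc : 0 < Real.cos (θ / 2) := Real.cos_pos_of_mem_Ioo ⟨by linarith, by linarith⟩
  have htan0 : 0 < Real.tan (θ / 2) := by rw [Real.tan_eq_sin_div_cos]; exact div_pos hs hc
  have htan := hη' (x := θ / 2) (by
    rw [Real.dist_eq, sub_zero, abs_of_pos hα0]; linarith)
  rw [Real.tan_zero, Real.dist_eq, sub_zero, abs_of_pos htan0] at htan
  have hTL := TL_eq V (θ / 2) hc.ne'
  have e : 2 * (θ / 2) = θ := by ring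
  rw [e] at hTL
  have A1 := H1 (Real.tan (θ / 2)) (2 * Real.sin (θ / 2) * Real.cos (θ / 2)) htan0.le
    (lt_of_lt_of_le htan (min_le_left _ _)) (by positivity) (TL V θ) (TL_herm V θ) hTL
  have A2 := H2 (Real.tan (θ / 2)) (2 * Real.sin (θ / 2) * Real.cos (θ / 2)) htan0.le
    (lt_of_lt_of_le htan (min_le_right _ _)) (by positivity) (TL V θ) (TL_herm V θ) hTL
  have B1 := cnt_Sm V 1
  have B2 := cnt_Sm V (-1)
  rw [neg_neg] at B2
  have hdet : (Sm V).det ≠ 0 := by
    rw [Sm, det_smul]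
    apply mul_ne_zero
    · exact pow_ne_zero _ (neg_ne_zero.2 Complex.I_ne_zero)
    · have : ((V - Vᵀ).map Complex.ofReal).det = (((V - Vᵀ).det : ℝ) : ℂ) := by
        have := RingHom.map_det Complex.ofRealHom (V - Vᵀ)
        exact this.symm
      rw [this]
      exact_mod_cast hV
  have C1 := cnt_add_eq (Sm_herm V) hdet
  have C2 := cnt_add_le (TL_herm V θ)
  rw [levine, sig_cnt]
  change cnt (Sm_herm V) 1 ≤ cnt (TL_herm V θ) 1 at A1
  change cnt (Sm_herm V) (-1) ≤ cnt (TL_herm V θ) (-1) at A2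
  omega

theorem levine_pi {n : ℕ} (V : Matrix (Fin n) (Fin n) ℝ) : levine V Real.pi = sig (Sp_herm V) := by
  apply sig_smul (Sp_herm V) (TL_herm V Real.pi) 2 (by norm_num)
  ext i j
  have h2 : Complex.exp (-((Real.pi : ℂ) * Complex.I)) = -1 := by
    rw [Complex.exp_neg, Complex.exp_pi_mul_I]; norm_num
  simp only [TL, Sp, h2, Complex.exp_pi_mul_I, Matrix.add_apply, Matrix.smul_apply,
    Matrix.map_apply, transpose_apply, smul_eq_mul]
  push_cast
  ring

theorem exists_jumps {g m : ℕ} (V : Matrix (Fin (2 * g)) (Fin (2 * g)) ℝ) (A : ℝ) (hA : A ≠ 0)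
    (h : ∀ j ≤ m, (alex V).coeff (g + j) = (-1) ^ j * A) :
    ∃ θ : ℕ → ℝ, (∀ l < m, θ (l + 1) < θ l) ∧ (∀ l ≤ m, 0 < θ l ∧ θ l < Real.pi) ∧
      ∀ l < m, 2 ≤ |levine V (θ l) - levine V (θ (l + 1))| := by
  obtain ⟨θ, σ, hσ, h1, h2, h3⟩ := exists_alt V A hA h
  refine ⟨θ, h1, h2, fun l hl => ?_⟩
  obtain ⟨D, hD1, hD2⟩ := h3 l hl.le
  obtain ⟨E, hE1, hE2⟩ := h3 (l + 1) hl
  exact sig_jump (TL_herm V (θ l)) (TL_herm V (θ (l + 1))) (σ := σ * (-1) ^ l) hD1 hE1 hD2 (by
    have : σ * (-1) ^ (l + 1) = -(σ * (-1) ^ l) := by rw [pow_succ]; simp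
    rw [← this]; exact hE2)

/-- If the Tristram–Levine signature is monotone on `(0, π]`, the stable length is at most half of
the absolute value of the signature. -/
theorem monotone_case {g m : ℕ} (V : Matrix (Fin (2 * g)) (Fin (2 * g)) ℝ)
    (hV : (V - Vᵀ).det ≠ 0) (A : ℝ) (hA : A ≠ 0)
    (h : ∀ j ≤ m, (alex V).coeff (g + j) = (-1) ^ j * A)
    (hmono : MonotoneOn (levine V) (Set.Ioc 0 Real.pi) ∨
      AntitoneOn (levine V) (Set.Ioc 0 Real.pi)) :
    (2 * m : ℤ) ≤ |sig (Sp_herm V)| := by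
  obtain ⟨θ, h1, h2, h3⟩ := exists_jumps V A hA h
  obtain ⟨δ, hδ, hδ'⟩ := levine_near_zero V hV
  rw [← levine_pi]
  set η := min (δ / 2) (θ m) with hη
  have hη0 : 0 < η := lt_min (by linarith) (h2 m le_rfl).1
  have hη1 : η ≤ θ m := min_le_right _ _
  have hη2 : levine V η = 0 := hδ' η hη0 (lt_of_le_of_lt (min_le_left _ _) (by linarith))
  have hη3 : η ≤ Real.pi := hη1.trans (h2 m le_rfl).2.le
  have hmem : ∀ l ≤ m, θ l ∈ Set.Ioc 0 Real.pi := fun l hl => ⟨(h2 l hl).1, (h2 l hl).2.le⟩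
  have hpi : Real.pi ∈ Set.Ioc 0 Real.pi := ⟨Real.pi_pos, le_rfl⟩
  have hηm : η ∈ Set.Ioc 0 Real.pi := ⟨hη0, hη3⟩
  rcases hmono with hm | hm
  · have key : ∀ l ≤ m, (2 * l : ℤ) ≤ levine V (θ 0) - levine V (θ l) := by
      intro l
      induction l with
      | zero => intro _; simp
      | succ l ih =>
        intro hl
        have a1 := ih (by omega)
        have a2 := h3 l (by omega)
        have a3 := hm (hmem (l + 1) hl) (hmem l (by omega)) (h1 l (by omega)).le
        rw [abs_of_nonneg (by linarith)] at a2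
        push_cast
        linarith
    have b1 := key m le_rfl
    have b2 := hm (hmem 0 (Nat.zero_le _)) hpi (h2 0 (Nat.zero_le _)).2.le
    have b3 := hm hηm (hmem m le_rfl) hη1
    rw [hη2] at b3
    have b4 := le_abs_self (levine V Real.pi)
    linarith
  · have key : ∀ l ≤ m, (2 * l : ℤ) ≤ levine V (θ l) - levine V (θ 0) := by
      intro l
      induction l with
      | zero => intro _; simp
      | succ l ih =>
        intro hl
        have a1 := ih (by omega)
        have a2 := h3 l (by omega)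
        have a3 := hm (hmem (l + 1) hl) (hmem l (by omega)) (h1 l (by omega)).le
        rw [abs_of_nonpos (by linarith)] at a2
        push_cast
        linarith
    have b1 := key m le_rfl
    have b2 := hm (hmem 0 (Nat.zero_le _)) hpi (h2 0 (Nat.zero_le _)).2.le
    have b3 := hm hηm (hmem m le_rfl) hη1
    rw [hη2] at b3
    have b4 := neg_abs_le (levine V Real.pi)
    linarith

end Pool.Agent.H87.Stab
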