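import Pool.Agent.H87.Oka.Alt

/-! A nonzero finite real sequence on decreasing nodes with `k` strict sign changes is matched in
sign by a polynomial of degree `≤ k` without zeros at the nodes. -/

open Polynomial

namespace Pool.Agent.H87.Stab

open Pool.Agent.H87.Oka

theorem sep_aux (u x : ℕ → ℝ) (n : ℕ) (hx : ∀ s < n, x (s + 1) < x s) :
    (∀ s ≤ n, u s = 0) ∨
    ∃ k : ℕ, ∃ q : ℝ[X], ∃ f : ℕ → ℕ, ∃ σ : ℝ, q.natDegree ≤ k ∧ σ ≠ 0 ∧
      (∀ l < k, f l < f (l + 1)) ∧ (∀ l ≤ k, f l < n + 1) ∧
      (∀ l ≤ k, 0 < σ * (-1) ^ l * u (f l)) ∧
      (∀ s ≤ n, 0 ≤ u s * q.eval (x s)) ∧ (∀ s ≤ n, q.eval (x s) ≠ 0) ∧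
      (∀ y ≤ x n, 0 < σ * (-1) ^ k * q.eval y) := by
  induction n with
  | zero =>
    by_cases h0 : u 0 = 0
    · left; intro s hs; rw [Nat.le_zero.1 hs]; exact h0
    · right
      refine ⟨0, C (u 0), fun _ => 0, u 0, ?_, h0, ?_, ?_, ?_, ?_, ?_, ?_⟩
      · simp
      · intro l hl; omega
      · intro l _; exact Nat.zero_lt_one
      · intro l hl
        rw [Nat.le_zero.1 hl]; simpa using mul_self_pos.2 h0
      · intro s hs
        rw [Nat.le_zero.1 hs]; simpa using mul_self_nonneg (u 0)
      · intro s hs; simpa using h0
      · intro y _; simpa using mul_self_pos.2 h0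
  | succ n ih =>
    have hxn := hx n (Nat.lt_succ_self n)
    rcases ih (fun s hs => hx s (by omega)) with hz | ⟨k, q, f, σ, hq, hσ, hf1, hf2, hf3, hs1, hs2, hy⟩
    · by_cases hn : u (n + 1) = 0
      · left
        intro s hs
        rcases Nat.lt_or_eq_of_le hs with h | h
        · exact hz s (by omega)
        · rw [h]; exact hn
      · right
        refine ⟨0, C (u (n + 1)), fun _ => n + 1, u (n + 1), ?_, hn, ?_, ?_, ?_, ?_, ?_, ?_⟩
        · simp
        · intro l hl; omega
        · intro l _; exact Nat.lt_succ_self _
        · intro l hl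
          rw [Nat.le_zero.1 hl]; simpa using mul_self_pos.2 hn
        · intro s hs
          rcases Nat.lt_or_eq_of_le hs with h | h
          · rw [hz s (by omega)]; simp
          · rw [h]; simpa using mul_self_nonneg (u (n + 1))
        · intro s hs; simpa using hn
        · intro y _; simpa using mul_self_pos.2 hn
    · right
      have hqn := hy (x (n + 1)) hxn.le
      have hq0 : q.eval (x (n + 1)) ≠ 0 := by
        intro h; rw [h, mul_zero] at hqn; exact lt_irrefl _ hqn
      by_cases hs : 0 ≤ σ * (-1) ^ k * u (n + 1)
      · refine ⟨k, q, f, σ, hq, hσ, hf1, fun l hl => by have := hf2 l hl; omega, hf3, ?_, ?_, ?_⟩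
        · intro s hs'
          rcases Nat.lt_or_eq_of_le hs' with h | h
          · exact hs1 s (by omega)
          · rw [h]
            have h1 : 0 ≤ (σ * (-1) ^ k * u (n + 1)) * (σ * (-1) ^ k * q.eval (x (n + 1))) :=
              mul_nonneg hs hqn.le
            have h2 : (σ * (-1) ^ k * u (n + 1)) * (σ * (-1) ^ k * q.eval (x (n + 1))) =
                (σ * (-1) ^ k) ^ 2 * (u (n + 1) * q.eval (x (n + 1))) := by ring
            rw [h2] at h1
            have h3 : 0 < (σ * (-1) ^ k) ^ 2 := by
              have : σ * (-1) ^ k ≠ 0 := mul_ne_zero hσ (pow_ne_zero _ (by norm_num))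
              positivity
            exact nonneg_of_mul_nonneg_right h1 h3
        · intro s hs'
          rcases Nat.lt_or_eq_of_le hs' with h | h
          · exact hs2 s (by omega)
          · rw [h]; exact hq0
        · intro y hy'; exact hy y (hy'.trans hxn.le)
      · have hs' : σ * (-1) ^ k * u (n + 1) < 0 := not_le.1 hs
        set c := (x n + x (n + 1)) / 2 with hc
        have hxs : ∀ s ≤ n, x n ≤ x s := by
          intro s hs
          induction n with
          | zero => rw [Nat.le_zero.1 hs]
          | succ n ih' =>
            clear ih'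
            have key : ∀ d, d ≤ n + 1 → x (n + 1) ≤ x (n + 1 - d) := by
              intro d
              induction d with
              | zero => intro _; simp
              | succ d ihd =>
                intro hd
                have h1 := ihd (by omega)
                have h2 := hx (n + 1 - (d + 1)) (by omega)
                have e : n + 1 - (d + 1) + 1 = n + 1 - d := by omega
                rw [e] at h2
                linarith
            have := key (n + 1 - s) (by omega)
            have e : n + 1 - (n + 1 - s) = s := by omega
            rwa [e] at this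
        refine ⟨k + 1, q * (X - C c), fun l => if l ≤ k then f l else n + 1, σ, ?_, hσ, ?_, ?_, ?_,
          ?_, ?_, ?_⟩
        · refine (natDegree_mul_le).trans ?_
          have : (X - C c : ℝ[X]).natDegree = 1 := natDegree_X_sub_C c
          omega
        · intro l hl
          simp only
          rw [if_pos (by omega : l ≤ k)]
          split_ifs with h
          · exact hf1 l (by omega)
          · exact hf2 l (by omega)
        · intro l hl
          simp only
          split_ifs with h
          · have := hf2 l h; omega
          · omega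
        · intro l hl
          simp only
          split_ifs with h
          · exact hf3 l h
          · have hl' : l = k + 1 := by omega
            subst hl'
            rw [pow_succ]; linarith
        · intro s hs2'
          rw [eval_mul, eval_sub, eval_X, eval_C]
          rcases Nat.lt_or_eq_of_le hs2' with h | h
          · have h1 := hs1 s (by omega)
            have h2 := hxs s (by omega)
            have h3 : 0 ≤ x s - c := by rw [hc]; linarith
            rw [← mul_assoc]
            exact mul_nonneg h1 h3
          · rw [h]
            have h1 : 0 ≤ (-(σ * (-1) ^ k * u (n + 1))) * (σ * (-1) ^ k * q.eval (x (n + 1))) :=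
              mul_nonneg (by linarith) hqn.le
            have h2 : (-(σ * (-1) ^ k * u (n + 1))) * (σ * (-1) ^ k * q.eval (x (n + 1))) =
                (σ * (-1) ^ k) ^ 2 * (-(u (n + 1) * q.eval (x (n + 1)))) := by ring
            rw [h2] at h1
            have h3 : 0 < (σ * (-1) ^ k) ^ 2 := by
              have : σ * (-1) ^ k ≠ 0 := mul_ne_zero hσ (pow_ne_zero _ (by norm_num))
              positivity
            have h4 := nonneg_of_mul_nonneg_right h1 h3
            have h5 : x (n + 1) - c ≤ 0 := by rw [hc]; linarith
            rw [← mul_assoc]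
            nlinarith
        · intro s hs2'
          rw [eval_mul, eval_sub, eval_X, eval_C]
          rcases Nat.lt_or_eq_of_le hs2' with h | h
          · have h2 := hxs s (by omega)
            have h3 : 0 < x s - c := by rw [hc]; linarith
            exact mul_ne_zero (hs2 s (by omega)) h3.ne'
          · rw [h]
            have h5 : x (n + 1) - c < 0 := by rw [hc]; linarith
            exact mul_ne_zero hq0 h5.ne
        · intro y hy'
          rw [eval_mul, eval_sub, eval_X, eval_C]
          have h1 := hy y (hy'.trans hxn.le)
          have h5 : y - c < 0 := by rw [hc]; linarith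
          have e : σ * (-1) ^ (k + 1) * (q.eval y * (y - c)) =
              (σ * (-1) ^ k * q.eval y) * (-(y - c)) := by rw [pow_succ]; ring
          rw [e]
          exact mul_pos h1 (by linarith)

theorem sep (u x : ℕ → ℝ) (n : ℕ) (hx : ∀ s < n, x (s + 1) < x s) (hu : ∃ s ≤ n, u s ≠ 0) :
    ∃ k : ℕ, ∃ q : ℝ[X], q.natDegree ≤ k ∧ Strong (n + 1) k u ∧
      (∀ s ≤ n, 0 ≤ u s * q.eval (x s)) ∧ (∀ s ≤ n, q.eval (x s) ≠ 0) := by
  rcases sep_aux u x n hx with h | ⟨k, q, f, σ, h1, h2, h3, h4, h5, h6, h7, h8⟩
  · obtain ⟨s, hs, hne⟩ := hu
    exact absurd (h s hs) hne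
  · exact ⟨k, q, h1, ⟨f, σ, h2, h3, h4, h5⟩, h6, h7⟩

end Pool.Agent.H87.Stab
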