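import Pool.Agent.H87.Stab.Det

/-! Signature of Hermitian matrices and sign of the determinant. -/

open Finset Matrix
open scoped ENNReal

namespace Pool.Agent.H87.Stab

/-- signature of a Hermitian matrix: number of positive minus number of negative eigenvalues -/
noncomputable def sig {n : ℕ} {H : Matrix (Fin n) (Fin n) ℂ} (hH : H.IsHermitian) : ℤ :=
  ((univ.filter fun i => 0 < hH.eigenvalues i).card : ℤ) -
    (univ.filter fun i => hH.eigenvalues i < 0).card

theorem prod_sign {ι : Type*} (s : Finset ι) (f : ι → ℝ) :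
    ∏ i ∈ s, f i = (-1) ^ (s.filter fun i => f i < 0).card * ∏ i ∈ s, |f i| := by
  classical
  have h1 : ∀ i ∈ s, f i = (if f i < 0 then (-1 : ℝ) else 1) * |f i| := by
    intro i _
    split_ifs with h
    · rw [abs_of_neg h]; ring
    · rw [abs_of_nonneg (not_lt.1 h)]; ring
  rw [prod_congr rfl h1, prod_mul_distrib, prod_ite, prod_const, prod_const_one, mul_one]

theorem det_real {n : ℕ} {H : Matrix (Fin n) (Fin n) ℂ} (hH : H.IsHermitian) :
    H.det = ((∏ i, hH.eigenvalues i : ℝ) : ℂ) := by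
  rw [hH.det_eq_prod_eigenvalues]
  push_cast
  rfl

theorem sig_eq {n : ℕ} {H : Matrix (Fin n) (Fin n) ℂ} (hH : H.IsHermitian)
    (h0 : ∏ i, hH.eigenvalues i ≠ 0) :
    sig hH = n - 2 * ((univ.filter fun i => hH.eigenvalues i < 0).card : ℤ) := by
  have h1 : (univ.filter fun i => ¬ hH.eigenvalues i < 0) =
      univ.filter fun i => 0 < hH.eigenvalues i := by
    apply filter_congr
    intro i _
    have : hH.eigenvalues i ≠ 0 := fun h => h0 (prod_eq_zero (mem_univ i) h)
    constructor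
    · intro h; exact lt_of_le_of_ne (not_lt.1 h) this.symm
    · intro h; exact not_lt.2 h.le
  have h2 := card_filter_add_card_filter_not (s := (univ : Finset (Fin n)))
    (fun i => hH.eigenvalues i < 0)
  rw [h1, card_univ, Fintype.card_fin] at h2
  rw [sig]
  have h3 : ((univ.filter fun i => hH.eigenvalues i < 0).card : ℤ) +
      (univ.filter fun i => 0 < hH.eigenvalues i).card = n := by exact_mod_cast h2
  linarith

theorem sig_jump {n : ℕ} {H K : Matrix (Fin n) (Fin n) ℂ} (hH : H.IsHermitian)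
    (hK : K.IsHermitian) {D E σ : ℝ} (hD : H.det = (D : ℂ)) (hE : K.det = (E : ℂ))
    (h1 : 0 < σ * D) (h2 : 0 < -σ * E) : 2 ≤ |sig hH - sig hK| := by
  have eD : D = ∏ i, hH.eigenvalues i := by
    have := det_real hH
    rw [hD] at this
    exact_mod_cast this
  have eE : E = ∏ i, hK.eigenvalues i := by
    have := det_real hK
    rw [hE] at this
    exact_mod_cast this
  have hD0 : D ≠ 0 := by rintro rfl; simp at h1
  have hE0 : E ≠ 0 := by rintro rfl; simp at h2
  rw [sig_eq hH (eD ▸ hD0), sig_eq hK (eE ▸ hE0)]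
  rw [prod_sign] at eD eE
  set a := (univ.filter fun i => hH.eigenvalues i < 0).card
  set b := (univ.filter fun i => hK.eigenvalues i < 0).card
  have hab : a ≠ b := by
    intro h
    rw [h] at eD
    have hp : 0 ≤ ∏ i, |hH.eigenvalues i| := prod_nonneg fun i _ => abs_nonneg _
    have hq : 0 ≤ ∏ i, |hK.eigenvalues i| := prod_nonneg fun i _ => abs_nonneg _
    have h3 : 0 < (σ * D) * (-σ * E) := mul_pos h1 h2
    have h4 : (σ * D) * (-σ * E) = -(σ ^ 2 * ((-1) ^ b * (-1) ^ b) *
        ((∏ i, |hH.eigenvalues i|) * ∏ i, |hK.eigenvalues i|)) := by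
      rw [eD, eE]; ring
    have h5 : ((-1 : ℝ) ^ b * (-1) ^ b) = 1 := by rw [← mul_pow]; norm_num
    rw [h4, h5] at h3
    have h6 : 0 ≤ σ ^ 2 * 1 * ((∏ i, |hH.eigenvalues i|) * ∏ i, |hK.eigenvalues i|) := by
      positivity
    linarith
  have hab' : (a : ℤ) - b ≠ 0 := by
    intro h; apply hab; exact_mod_cast sub_eq_zero.1 h
  have h7 : 1 ≤ |(a : ℤ) - b| := Int.one_le_abs hab'
  have h8 : (n : ℤ) - 2 * a - (n - 2 * b) = -(2 * (a - b)) := by ring
  rw [h8, abs_neg, abs_mul]
  norm_num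
  linarith

/-- The Tristram–Levine signature at `ω = exp (i θ)`. -/
noncomputable def levine {n : ℕ} (V : Matrix (Fin n) (Fin n) ℝ) (θ : ℝ) : ℤ := sig (TL_herm V θ)

theorem variation {g m : ℕ} (V : Matrix (Fin (2 * g)) (Fin (2 * g)) ℝ) (A : ℝ) (hA : A ≠ 0)
    (h : ∀ j ≤ m, (alex V).coeff (g + j) = (-1) ^ j * A) :
    ((2 * m : ℕ) : ℝ≥0∞) ≤ eVariationOn (fun θ => (levine V θ : ℝ)) (Set.Ioo 0 Real.pi) := by
  obtain ⟨θ, σ, hσ, h1, h2, h3⟩ := exists_alt V A hA h
  have hlt : ∀ i j, i ≤ j → j ≤ m → θ j ≤ θ i := by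
    intro i j hij
    induction j with
    | zero => intro _; rw [Nat.le_zero.1 hij]
    | succ j ih =>
      intro hj
      rcases Nat.lt_or_eq_of_le hij with h4 | h4
      · exact (h1 j (by omega)).le.trans (ih (by omega) (by omega))
      · rw [h4]
  have key := eVariationOn.sum_le_of_monotoneOn_Iic (f := fun θ => (levine V θ : ℝ))
    (s := Set.Ioo 0 Real.pi) (n := m) (u := fun i => θ (m - i)) (by
      intro i hi j hj hij
      exact hlt (m - j) (m - i) (by omega) (by omega)) (by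
      intro i hi
      exact h2 (m - i) (by omega))
  refine le_trans ?_ key
  have hterm : ∀ i ∈ range m, (2 : ℝ≥0∞) ≤
      edist ((levine V (θ (m - (i + 1))) : ℤ) : ℝ) ((levine V (θ (m - i)) : ℤ) : ℝ) := by
    intro i hi
    have hi' := mem_range.1 hi
    obtain ⟨D, hD1, hD2⟩ := h3 (m - (i + 1)) (by omega)
    obtain ⟨E, hE1, hE2⟩ := h3 (m - i) (by omega)
    have e : m - i = (m - (i + 1)) + 1 := by omega
    have hj := sig_jump (TL_herm V (θ (m - (i + 1)))) (TL_herm V (θ (m - i)))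
      (σ := σ * (-1) ^ (m - (i + 1))) hD1 hE1 hD2 (by
        have : σ * (-1) ^ (m - i) = -(σ * (-1) ^ (m - (i + 1))) := by rw [e, pow_succ]; simp
        rw [← this]; exact hE2)
    rw [edist_dist, Real.dist_eq]
    have h5 : (2 : ℝ) ≤ |((levine V (θ (m - (i + 1))) : ℤ) : ℝ) - ((levine V (θ (m - i)) : ℤ) : ℝ)| := by
      have : (2 : ℤ) ≤ |levine V (θ (m - (i + 1))) - levine V (θ (m - i))| := hj
      exact_mod_cast this
    have h6 : (2 : ℝ≥0∞) = ENNReal.ofReal 2 := by simp
    rw [h6]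
    exact ENNReal.ofReal_le_ofReal h5
  calc ((2 * m : ℕ) : ℝ≥0∞) = ∑ i ∈ range m, (2 : ℝ≥0∞) := by
        rw [sum_const, card_range]; push_cast; rw [nsmul_eq_mul, mul_comm]
    _ ≤ _ := sum_le_sum hterm

end Pool.Agent.H87.Stab
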