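import Pool.Agent.H87.Stab.Sep

/-! Discrete orthogonality of half-integer sines, and strict sign changes. -/

open Polynomial Finset

namespace Pool.Agent.H87.Stab

open Pool.Agent.H87.Oka

/-- telescoped sum of cosines -/
theorem cos_sum (α : ℝ) (M : ℕ) :
    2 * Real.sin (α / 2) * ∑ s ∈ range M, Real.cos ((s + 1 : ℕ) * α) =
      Real.sin ((M + 1 / 2) * α) - Real.sin (α / 2) := by
  induction M with
  | zero => simp; ring_nf
  | succ M ih =>
    rw [sum_range_succ, mul_add, ih]
    have h1 : Real.sin (((M + 1 : ℕ) + 1 / 2 : ℝ) * α) =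
        Real.sin (((M + 1 : ℕ) : ℝ) * α + α / 2) := by
      congr 1; ring
    have h2 : Real.sin (((M : ℕ) + 1 / 2 : ℝ) * α) =
        Real.sin (((M + 1 : ℕ) : ℝ) * α - α / 2) := by
      congr 1; push_cast; ring
    rw [h1, h2, Real.sin_add, Real.sin_sub]
    ring

/-- the grid -/
noncomputable def ph (M s : ℕ) : ℝ := (s + 1 : ℕ) * (2 * Real.pi / (2 * M + 1))

theorem cos_grid (M k : ℕ) (h1 : 1 ≤ k) (h2 : k < 2 * M + 1) :
    ∑ s ∈ range M, Real.cos (k * ph M s) = -1 / 2 := by
  have hM : (0 : ℝ) < 2 * M + 1 := by positivity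
  set α : ℝ := k * (2 * Real.pi / (2 * M + 1)) with hα
  have e : ∀ s, Real.cos (k * ph M s) = Real.cos ((s + 1 : ℕ) * α) := by
    intro s; congr 1; rw [ph, hα]; ring
  simp_rw [e]
  have h := cos_sum α M
  have e1 : Real.sin ((M + 1 / 2) * α) = 0 := by
    have : ((M : ℝ) + 1 / 2) * α = k * Real.pi := by
      rw [hα]; field_simp
    rw [this]; exact Real.sin_nat_mul_pi k
  have hpos : 0 < Real.sin (α / 2) := by
    apply Real.sin_pos_of_pos_of_lt_pi
    · rw [hα]
      have : (0 : ℝ) < k := by exact_mod_cast h1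
      have := Real.pi_pos
      positivity
    · have e2 : α / 2 = Real.pi * (k / (2 * M + 1)) := by rw [hα]; field_simp
      rw [e2]
      have h3 : (k : ℝ) / (2 * M + 1) < 1 := by
        rw [div_lt_one hM]; exact_mod_cast h2
      calc Real.pi * (k / (2 * M + 1)) < Real.pi * 1 :=
            mul_lt_mul_of_pos_left h3 Real.pi_pos
        _ = Real.pi := mul_one _
  rw [e1] at h
  have h4 : Real.sin (α / 2) * (2 * ∑ s ∈ range M, Real.cos ((s + 1 : ℕ) * α) + 1) = 0 := by
    linarith
  rcases mul_eq_zero.1 h4 with h5 | h5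
  · exact absurd h5 hpos.ne'
  · linarith

/-- half-integer sine -/
noncomputable def hs (j : ℕ) (φ : ℝ) : ℝ := Real.sin ((j + 1 / 2) * φ)

theorem orth (M j l : ℕ) (hj : j < M) (hl : l < j) :
    ∑ s ∈ range M, hs j (ph M s) * hs l (ph M s) = 0 := by
  have e : ∀ φ : ℝ, hs j φ * hs l φ =
      (1 / 2) * Real.cos ((j - l : ℕ) * φ) - (1 / 2) * Real.cos ((j + l + 1 : ℕ) * φ) := by
    intro φ
    have h1 : ((j - l : ℕ) : ℝ) * φ = (j + 1 / 2) * φ - (l + 1 / 2) * φ := by
      rw [Nat.cast_sub hl.le]; ring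
    have h2 : ((j + l + 1 : ℕ) : ℝ) * φ = (j + 1 / 2) * φ + (l + 1 / 2) * φ := by
      push_cast; ring
    rw [h1, h2, Real.cos_sub, Real.cos_add, hs, hs]
    ring
  simp_rw [e]
  rw [sum_sub_distrib, ← mul_sum, ← mul_sum, cos_grid M (j - l) (by omega) (by omega),
    cos_grid M (j + l + 1) (by omega) (by omega)]
  ring

theorem norm_hs (M j : ℕ) (hj : j < M) :
    ∑ s ∈ range M, hs j (ph M s) * hs j (ph M s) = (2 * M + 1) / 4 := by
  have e : ∀ φ : ℝ, hs j φ * hs j φ =
      1 / 2 - (1 / 2) * Real.cos ((2 * j + 1 : ℕ) * φ) := by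
    intro φ
    have h2 : ((2 * j + 1 : ℕ) : ℝ) * φ = 2 * ((j + 1 / 2) * φ) := by
      push_cast; ring
    rw [h2, Real.cos_two_mul, hs]
    have := Real.sin_sq_add_cos_sq ((j + 1 / 2) * φ)
    nlinarith
  simp_rw [e]
  rw [sum_sub_distrib, ← mul_sum, cos_grid M (2 * j + 1) (by omega) (by omega)]
  simp
  ring

theorem orth_cos (M j : ℕ) (hj : j < M) (k : ℕ) : ∀ l, l + k < j →
    ∑ s ∈ range M, hs j (ph M s) * (hs l (ph M s) * Real.cos (ph M s) ^ k) = 0 := by
  induction k with
  | zero =>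
    intro l hl
    simp only [pow_zero, mul_one]
    exact orth M j l hj (by omega)
  | succ k ih =>
    intro l hl
    rcases l with _ | l
    · have e : ∀ φ : ℝ, hs j φ * (hs 0 φ * Real.cos φ ^ (k + 1)) =
          (1 / 2) * (hs j φ * (hs 1 φ * Real.cos φ ^ k)) -
            (1 / 2) * (hs j φ * (hs 0 φ * Real.cos φ ^ k)) := by
        intro φ
        have h1 : hs 0 φ * Real.cos φ = (1 / 2) * hs 1 φ - (1 / 2) * hs 0 φ := by
          have e1 : hs 1 φ = Real.sin (φ + φ / 2) := by rw [hs]; congr 1; push_cast; ring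
          have e0 : hs 0 φ = Real.sin (φ / 2) := by rw [hs]; congr 1; push_cast; ring
          have e2 : Real.sin (φ / 2) = - Real.sin (φ / 2 - φ) := by
            rw [← Real.sin_neg]; congr 1; ring
          have e3 := Real.sin_sub (φ / 2) φ
          rw [e1, e0, Real.sin_add]
          linarith
        rw [pow_succ]
        linear_combination (hs j φ * Real.cos φ ^ k) * h1
      simp_rw [e]
      rw [sum_sub_distrib, ← mul_sum, ← mul_sum, ih 1 (by omega), ih 0 (by omega)]
      ring
    · have e : ∀ φ : ℝ, hs j φ * (hs (l + 1) φ * Real.cos φ ^ (k + 1)) =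
          (1 / 2) * (hs j φ * (hs (l + 2) φ * Real.cos φ ^ k)) +
            (1 / 2) * (hs j φ * (hs l φ * Real.cos φ ^ k)) := by
        intro φ
        have h1 : hs (l + 1) φ * Real.cos φ = (1 / 2) * hs (l + 2) φ + (1 / 2) * hs l φ := by
          have e1 : hs (l + 2) φ = Real.sin (((l + 1 : ℕ) + 1 / 2 : ℝ) * φ + φ) := by
            rw [hs]; congr 1; push_cast; ring
          have e0 : hs l φ = Real.sin (((l + 1 : ℕ) + 1 / 2 : ℝ) * φ - φ) := by
            rw [hs]; congr 1; push_cast; ring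
          rw [e1, e0, Real.sin_add, Real.sin_sub, hs]
          ring
        rw [pow_succ]
        linear_combination (hs j φ * Real.cos φ ^ k) * h1
      simp_rw [e]
      rw [sum_add_distrib, ← mul_sum, ← mul_sum, ih (l + 2) (by omega), ih l (by omega)]
      ring

theorem orth_poly (M j : ℕ) (hj : j < M) (q : ℝ[X]) (hq : q.natDegree < j) :
    ∑ s ∈ range M, hs j (ph M s) * (hs 0 (ph M s) * q.eval (Real.cos (ph M s))) = 0 := by
  simp_rw [eval_eq_sum_range, mul_sum]
  rw [sum_comm]
  apply sum_eq_zero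
  intro i hi
  have hi' : i < j := by have := mem_range.1 hi; omega
  have := orth_cos M j hj i 0 (by omega)
  calc ∑ s ∈ range M, hs j (ph M s) * (hs 0 (ph M s) * (q.coeff i * Real.cos (ph M s) ^ i))
      = q.coeff i * ∑ s ∈ range M, hs j (ph M s) * (hs 0 (ph M s) * Real.cos (ph M s) ^ i) := by
        rw [mul_sum]; apply sum_congr rfl; intro s _; ring
    _ = 0 := by rw [this, mul_zero]

theorem ph_pos (M s : ℕ) : 0 < ph M s := by
  rw [ph]; have := Real.pi_pos; positivity

theorem ph_lt_pi (M s : ℕ) (h : s < M) : ph M s < Real.pi := by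
  have hM : (0 : ℝ) < 2 * M + 1 := by positivity
  have e : ph M s = Real.pi * ((2 * (s + 1 : ℕ)) / (2 * M + 1)) := by rw [ph]; field_simp
  rw [e]
  have h3 : ((2 * (s + 1 : ℕ)) : ℝ) / (2 * M + 1) < 1 := by
    rw [div_lt_one hM]
    have : 2 * (s + 1) < 2 * M + 1 := by omega
    exact_mod_cast this
  calc Real.pi * ((2 * (s + 1 : ℕ)) / (2 * M + 1)) < Real.pi * 1 :=
        mul_lt_mul_of_pos_left h3 Real.pi_pos
    _ = Real.pi := mul_one _

theorem ph_lt (M s t : ℕ) (h : s < t) : ph M s < ph M t := by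
  rw [ph, ph]
  have := Real.pi_pos
  have h1 : (0 : ℝ) < 2 * Real.pi / (2 * M + 1) := by positivity
  apply mul_lt_mul_of_pos_right _ h1
  exact_mod_cast Nat.succ_lt_succ h

/-- Values on the grid of `∑_{m ≤ j ≤ g} d_j sin((j+1/2)φ)`, not all `d_j` zero, change sign at
least `m` times. -/
theorem strong_of_high (g m : ℕ) (d : ℕ → ℝ) (hd0 : ∀ j < m, d j = 0) (hd : ∃ j ≤ g, d j ≠ 0) :
    Strong (g + 1) m (fun s => ∑ j ∈ range (g + 1), d j * hs j (ph (g + 1) s)) := by
  set u : ℕ → ℝ := fun s => ∑ j ∈ range (g + 1), d j * hs j (ph (g + 1) s) with hu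
  -- not all zero
  have hne : ∃ s ≤ g, u s ≠ 0 := by
    by_contra hcon
    push Not at hcon
    obtain ⟨j, hj, hdj⟩ := hd
    have h1 : ∑ s ∈ range (g + 1), u s * hs j (ph (g + 1) s) = 0 := by
      apply sum_eq_zero
      intro s hs'
      rw [hcon s (by have := mem_range.1 hs'; omega), zero_mul]
    have h2 : ∑ s ∈ range (g + 1), u s * hs j (ph (g + 1) s) =
        ∑ i ∈ range (g + 1), d i * ∑ s ∈ range (g + 1), hs i (ph (g + 1) s) * hs j (ph (g + 1) s) := by
      simp_rw [hu, sum_mul, mul_sum]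
      rw [sum_comm]
      apply sum_congr rfl; intro i _
      apply sum_congr rfl; intro s _
      ring
    rw [h2, sum_eq_single j] at h1
    · rw [norm_hs (g + 1) j (by omega)] at h1
      rcases mul_eq_zero.1 h1 with h3 | h3
      · exact hdj h3
      · have : (0 : ℝ) < (2 * ((g + 1 : ℕ) : ℝ) + 1) / 4 := by positivity
        linarith
    · intro i hi hij
      rcases lt_or_gt_of_ne hij with h3 | h3
      · have := orth (g + 1) j i (by omega) h3
        have e : ∑ s ∈ range (g + 1), hs i (ph (g + 1) s) * hs j (ph (g + 1) s) = 0 := by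
          rw [← this]; apply sum_congr rfl; intro s _; ring
        rw [e, mul_zero]
      · have := orth (g + 1) i j (by have := mem_range.1 hi; omega) h3
        rw [this, mul_zero]
    · intro h; exact absurd (mem_range.2 (by omega)) h
  obtain ⟨k, q, hq, hS, hs1, hs2⟩ := sep u (fun s => Real.cos (ph (g + 1) s)) g (by
    intro s hs'
    apply Real.cos_lt_cos_of_nonneg_of_le_pi (ph_pos _ _).le
    · exact (ph_lt_pi (g + 1) (s + 1) (by omega)).le
    · exact ph_lt _ _ _ (Nat.lt_succ_self s)) hne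
  by_cases hkm : m ≤ k
  · exact hS.mono hkm
  · exfalso
    have hsum : ∑ s ∈ range (g + 1),
        (u s * q.eval (Real.cos (ph (g + 1) s))) * hs 0 (ph (g + 1) s) = 0 := by
      have e : ∑ s ∈ range (g + 1),
          (u s * q.eval (Real.cos (ph (g + 1) s))) * hs 0 (ph (g + 1) s) =
          ∑ j ∈ range (g + 1), d j * ∑ s ∈ range (g + 1),
            hs j (ph (g + 1) s) * (hs 0 (ph (g + 1) s) * q.eval (Real.cos (ph (g + 1) s))) := by
        simp_rw [hu, sum_mul, mul_sum]
        rw [sum_comm]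
        apply sum_congr rfl; intro i _
        apply sum_congr rfl; intro s _
        ring
      rw [e]
      apply sum_eq_zero
      intro j hj
      by_cases hjm : j < m
      · rw [hd0 j hjm, zero_mul]
      · rw [orth_poly (g + 1) j (by have := mem_range.1 hj; omega) q (by omega), mul_zero]
    have hpos : ∀ s ∈ range (g + 1), 0 < hs 0 (ph (g + 1) s) := by
      intro s hs'
      rw [hs]
      have h1 := ph_pos (g + 1) s
      have h2 := ph_lt_pi (g + 1) s (mem_range.1 hs')
      apply Real.sin_pos_of_pos_of_lt_pi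
      · push_cast; linarith
      · push_cast; linarith
    have hz := (sum_eq_zero_iff_of_nonneg (fun s hs' =>
      mul_nonneg (hs1 s (by have := mem_range.1 hs'; omega)) (hpos s hs').le)).1 hsum
    obtain ⟨s, hs', hus⟩ := hne
    have h1 := hz s (mem_range.2 (by omega))
    rcases mul_eq_zero.1 h1 with h2 | h2
    · rcases mul_eq_zero.1 h2 with h3 | h3
      · exact hus h3
      · exact hs2 s hs' h3
    · exact (hpos s (mem_range.2 (by omega))).ne' h2

end Pool.Agent.H87.Stab
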